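import Pool.Agent.H681.TS.C3

/-!
# Simultaneous large central values in almost all translates of every family of characters

Let `k ≥ 0` and `δ > 0`. There are `c > 0` and `q₀` such that for all primes `q ≥ q₀` and all `V` with
`(log q) ^ (1/3) ≤ V ≤ c √(log q / log log q)` the following holds. Let `A` be an ARBITRARY finite set and `f_1, ..., f_k`
ARBITRARY maps from `A` to the group `X` of the Dirichlet characters modulo `q` with fibres of at most `q ^ (-δ) |A|` elements.
For all `k`-tuples `(χ_1, ..., χ_k)` of characters modulo `q` with at most `exp (-c log q / V ^ 2) (q - 1) ^ k` exceptions, at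
least `q ^ (-δ) |A|` members `i` of `A` have `|L(1/2, χ_j f_j(i))| ≥ exp V` for ALL `j ≤ k` (and `χ_j f_j(i)` is not principal).
The exceptional tuples may be chosen the same for up to `exp (c log q / V ^ 2)` families `(A, f)`.

For the largest `V`, `V = c √(log q / log log q)`, there are at most `(q - 1) ^ k (log q) ^ (-1/c)` exceptions.

Question Q1 is about the cosets `χ_0 H` of the subgroups `H` of `X` with at least `q ^ ε` elements. Here `k = 1` and the inclusion
of any set `S` of at least `q ^ δ` characters (a subgroup, a short interval `ψ₀ ^ n`, `n < q ^ δ`, of powers of a generator, or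
any sparse set) gives at least `q ^ (-δ) |S|` large values in almost all translates of `S`. For `k > 1` the values are large
simultaneously: for every subgroup `H` with at least `q ^ δ` elements and almost all `k`-tuples of cosets `χ_j H` there are
`q ^ (-δ) |H|` characters `ψ ∈ H` such that `|L(1/2, χ_j ψ)| ≥ exp V` for all `j ≤ k`; the same for `|L(1/2, χ_j ψ ^ j)|`.

Method: the resonator `|R(χ)|²` of the library project `Q237/LV` on primes in `[y, y²]`, `y = exp (c log q / V ^ 2)`, with a
mollifier which removes the primes below `y`. The sum over a translate of a set `S` is `∑_κ χ(κ) T(κ) ∑_{ψ ∈ S} ψ(κ)`; its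
variance over `χ` is the sum of `T(κ)² F(κ)` over the residue classes `κ ≠ 1`, where `F(κ) = |E_{ψ ∈ S} ψ(κ)|²`. The function `F`
is positive definite, and so the sum of `F(u c)` over the rough integers `u ≤ z` is at most the mean over `ψ, ψ' ∈ S` of
`|∑_{u ≤ z} (ψ ψ'⁻¹)(u)|`, which is estimated by high moments over all the characters modulo `q`. This replaces the counting in
subgroups. The number of large values follows from the case of one large value, applied to disjoint subsets of `A` on which `f`
is injective. For the simultaneous values the result is applied to the set of the `i ∈ A` for which the first `j - 1` values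
are large; this needs the case of arbitrary sets.

The lemmas of the files `A1`-`A11` were proved by helpers 956, 383, 118, 264, 977, 990, 114, 795, 441, 696 and 675.
-/

set_option autoImplicit false

open Filter

namespace Pool.Agent.Results.MP_3e6494_nt.AlmostAllTranslates

/-- the character `φ` is not principal and `|L(1/2, φ)| ≥ exp V` -/
def Large {q : ℕ} [Fact q.Prime] (V : ℝ) (φ : DirichletCharacter ℂ q) : Prop :=
  φ ≠ 1 ∧ Real.exp V ≤ ‖φ.LFunction (1 / 2)‖

/-- **Simultaneous large central values in almost all translates of every family of characters.** See above; there are `n`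
families `A m`, `f m 0, ..., f m (k - 1)`. -/
theorem result (k : ℕ) (δ : ℝ) (hδ : 0 < δ) : ∃ c : ℝ, 0 < c ∧ ∃ q₀ : ℕ, ∀ (q : ℕ) [Fact q.Prime], q₀ ≤ q →
    ∀ V : ℝ, Real.log q ^ (1 / 3 : ℝ) ≤ V → V ≤ c * Real.sqrt (Real.log q / Real.log (Real.log q)) →
      ∀ (n : ℕ) (ι : Type) (A : Fin n → Finset ι) (f : Fin n → Fin k → ι → DirichletCharacter ℂ q),
        (n : ℝ) ≤ Real.exp (c * (Real.log q / V ^ 2)) →
        (∀ m j φ, ({i | i ∈ A m ∧ f m j i = φ}.ncard : ℝ) ≤ (q : ℝ) ^ (-δ) * (A m).card) →
        ({χ : Fin k → DirichletCharacter ℂ q | ∃ m,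
          ({i | i ∈ A m ∧ ∀ j, Large V (χ j * f m j i)}.ncard : ℝ) < (q : ℝ) ^ (-δ) * (A m).card}.ncard : ℝ) ≤
            Real.exp (-(c * (Real.log q / V ^ 2))) * ((q : ℝ) - 1) ^ k := by
  classical
  obtain ⟨c, hc, h⟩ := Pool.Agent.H681.TS.simul_many k δ hδ
  obtain ⟨q₀, hq₀⟩ := eventually_atTop.1 h
  refine ⟨c, hc, q₀, fun q _ hq V hV1 hV2 n ι A f hn hf => ?_⟩
  have h0 : ∀ m j φ, {i | i ∈ A m ∧ f m j i = φ}.ncard = ((A m).filter (fun i => f m j i = φ)).card := by
    intro m j φ
    rw [← Set.ncard_coe_finset]
    congr 1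
    ext i
    simp
  have h1 := hq₀ q hq V hV1 hV2 n ι A f hn (fun m j φ => by
    have h9 := hf m j φ
    rw [h0] at h9
    convert h9)
  have h2 : ∀ (m : Fin n) (χ : Fin k → DirichletCharacter ℂ q),
      {i | i ∈ A m ∧ ∀ j, Large V (χ j * f m j i)}.ncard = (Pool.Agent.H681.TS.sim (A m) (f m) V χ).card := by
    intro m χ
    rw [← Set.ncard_coe_finset]
    congr 1
    ext i
    unfold Pool.Agent.H681.TS.sim Pool.Agent.H681.TS.Lg Large
    simp
  have h3 : {χ : Fin k → DirichletCharacter ℂ q | ∃ m,
      ({i | i ∈ A m ∧ ∀ j, Large V (χ j * f m j i)}.ncard : ℝ) < (q : ℝ) ^ (-δ) * (A m).card}.ncard =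
      ((Finset.univ : Finset (Fin k → DirichletCharacter ℂ q)).filter (fun χ => ∃ m,
        ((Pool.Agent.H681.TS.sim (A m) (f m) V χ).card : ℝ) < (q : ℝ) ^ (-δ) * (A m).card)).card := by
    rw [← Set.ncard_coe_finset]
    congr 1
    ext χ
    simp [h2]
  have h4 : (q.totient : ℝ) = q - 1 := by
    have hp : q.Prime := Fact.out
    rw [Nat.totient_prime hp, Nat.cast_sub hp.one_lt.le, Nat.cast_one]
  rw [h3, ← h4]
  convert h1 using 3

end Pool.Agent.Results.MP_3e6494_nt.AlmostAllTranslates
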